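import Pool.Agent.H65.LR.GK
import Pool.Agent.H71.DA.GirM
import Pool.Agent.H71.DA.Cyc
import Pool.Agent.H75.INF.Defs

/-!
# Girth for a pair of generators which commutes with all other generators
-/

set_option autoImplicit false

namespace Pool.Agent.H65.LR

open Pool.Agent.H52.PAG Pool.Agent.H75.INF Pool.Agent.H71.DA

variable {B : Type} {M : CoxeterMatrix B}

private theorem zp_ne {c : B} {n : ℤ} (hn : n ≠ 0) : gen M c ^ n ≠ 1 := fun h => hn (gen_zpow_eq_one M h)

/-- the dihedral case -/
theorem gk_dih {b c : B} (hbc : b ≠ c) (h0 : M b c ≠ 0) :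
    GK (Subgroup.zpowers (gen M c)) (Subgroup.zpowers (gen M b)) (M b c) := by
  intro l h1 h2 h3
  have key : ∀ l : List (Art M × Art M), (∀ x ∈ l, x.1 ∈ Subgroup.zpowers (gen M c) ∧
      x.1 ∉ Subgroup.zpowers (gen M b) ∧ x.2 ∈ Subgroup.zpowers (gen M b) ∧ x.2 ∉ Subgroup.zpowers (gen M c)) →
      ∃ k : ℕ → ℤ, (∀ i, k i ≠ 0) ∧ (l.map fun x => x.1 * x.2).prod = altz (gen M c) (gen M b) k (2 * l.length) := by
    intro l
    induction l with
    | nil => exact fun _ => ⟨fun _ => 1, fun _ => one_ne_zero, rfl⟩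
    | cons x l ih =>
      intro h
      obtain ⟨k, hk, hp⟩ := ih fun y hy => h y (List.mem_cons_of_mem _ hy)
      obtain ⟨⟨i, hi⟩, a2, ⟨j, hj⟩, a4⟩ := h x List.mem_cons_self
      have hi' : gen M c ^ i = x.1 := hi
      have hj' : gen M b ^ j = x.2 := hj
      have hi0 : i ≠ 0 := by
        rintro rfl
        rw [zpow_zero] at hi'
        exact a2 (hi' ▸ one_mem _)
      have hj0 : j ≠ 0 := by
        rintro rfl
        rw [zpow_zero] at hj'
        exact a4 (hj' ▸ one_mem _)
      refine ⟨fun n => if n = 0 then i else if n = 1 then j else k (n - 2), ?_, ?_⟩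
      · intro n
        show (if n = 0 then i else if n = 1 then j else k (n - 2)) ≠ 0
        split_ifs
        · exact hi0
        · exact hj0
        · exact hk _
      · have e : 2 * (x :: l).length = 2 * l.length + 1 + 1 := by
          rw [List.length_cons]
          omega
        rw [e, altz_succ', altz_succ', List.map_cons, List.prod_cons, hp]
        have e2 : (fun n => (fun n => (fun n => if n = 0 then i else if n = 1 then j else k (n - 2)) (n + 1)) (n + 1)) =
            k := by
          funext n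
          have h5 : n + 1 + 1 ≠ 0 := by omega
          have h6 : n + 1 + 1 ≠ 1 := by omega
          show (if n + 1 + 1 = 0 then i else if n + 1 + 1 = 1 then j else k (n + 1 + 1 - 2)) = k n
          rw [if_neg h5, if_neg h6]
          congr 1
        rw [e2, ← mul_assoc]
        congr 1
        rw [← hi', ← hj']
        rfl
  obtain ⟨k, hk, hp⟩ := key l h3
  rw [hp]
  have h5 : 0 < l.length := List.length_pos_iff.2 h1
  have h6 : M c b = M b c := M.symmetric c b
  refine altz_ne_one M hbc.symm (by rw [h6]; exact h0) (by omega) ⟨l.length, by omega⟩ ?_ fun i _ => hk i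
  rw [h6]
  omega

/-- an element of `ap M {b}ᶜ` is a power of `gen M c` times an element of the rest -/
private theorem dec {b c : B} (hbc : b ≠ c) (hc : ∀ a, a ≠ b → a ≠ c → M a c = 2) {x : Art M}
    (hx : x ∈ ap M ({b}ᶜ : Set B)) : ∃ (n : ℤ) (y : Art M), y ∈ ap M ({b, c}ᶜ : Set B) ∧ x = gen M c ^ n * y := by
  have hcomm : ∀ y ∈ ap M ({b, c}ᶜ : Set B), gen M c * y = y * gen M c := by
    intro y hy
    refine ap_induction (P := fun y => gen M c * y = y * gen M c) ?_ ?_ ?_ hy
    · rw [mul_one, one_mul]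
    · intro x _ k hk h
      have hk' : k ≠ b ∧ k ≠ c := by
        constructor
        · rintro rfl
          exact hk (Set.mem_insert _ _)
        · rintro rfl
          exact hk (Set.mem_insert_of_mem _ rfl)
      have h2 := hc k hk'.1 hk'.2
      have h3 := gen_rel (M := M) (i := k) (j := c) (by rw [h2]; omega)
      rw [h2] at h3
      simp only [alt, mul_one] at h3
      rw [← mul_assoc, h, mul_assoc, ← h3, mul_assoc]
    · intro x _ k hk h
      have hk' : k ≠ b ∧ k ≠ c := by
        constructor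
        · rintro rfl
          exact hk (Set.mem_insert _ _)
        · rintro rfl
          exact hk (Set.mem_insert_of_mem _ rfl)
      have h2 := hc k hk'.1 hk'.2
      have h3 := gen_rel (M := M) (i := k) (j := c) (by rw [h2]; omega)
      rw [h2] at h3
      simp only [alt, mul_one] at h3
      have h4 : gen M c * (gen M k)⁻¹ = (gen M k)⁻¹ * gen M c := by
        rw [eq_inv_mul_iff_mul_eq, ← mul_assoc, h3, mul_assoc, mul_inv_cancel, mul_one]
      rw [← mul_assoc, h, mul_assoc, h4, mul_assoc]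
  have hcommz : ∀ y ∈ ap M ({b, c}ᶜ : Set B), y * gen M c = gen M c * y := fun y hy => (hcomm y hy).symm
  refine ap_induction (P := fun x => ∃ (n : ℤ) (y : Art M), y ∈ ap M ({b, c}ᶜ : Set B) ∧ x = gen M c ^ n * y)
    ?_ ?_ ?_ hx
  · exact ⟨0, 1, one_mem _, by rw [zpow_zero, one_mul]⟩
  · rintro x _ k hk ⟨n, y, hy, rfl⟩
    by_cases hkc : k = c
    · subst hkc
      refine ⟨n + 1, y, hy, ?_⟩
      rw [mul_assoc, hcommz y hy, ← mul_assoc, zpow_add_one]
    · refine ⟨n, y * gen M k, mul_mem hy (gen_mem_ap ?_), mul_assoc _ _ _⟩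
      rintro (h | h)
      · exact hk h
      · exact hkc h
  · rintro x _ k hk ⟨n, y, hy, rfl⟩
    by_cases hkc : k = c
    · subst hkc
      refine ⟨n - 1, y, hy, ?_⟩
      have h5 : y * (gen M k)⁻¹ = (gen M k)⁻¹ * y := by
        rw [eq_inv_mul_iff_mul_eq, ← mul_assoc, hcomm y hy, mul_assoc, mul_inv_cancel, mul_one]
      rw [mul_assoc, h5, ← mul_assoc, zpow_sub_one]
    · refine ⟨n, y * (gen M k)⁻¹, mul_mem hy (inv_mem (gen_mem_ap ?_)), mul_assoc _ _ _⟩
      rintro (h | h)
      · exact hk h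
      · exact hkc h

open Classical in
/-- the retraction which kills the generators different from `b` and `c` -/
private theorem exists_ret {b c : B} (hb : ∀ a, a ≠ b → a ≠ c → M a b = 2) (hc : ∀ a, a ≠ b → a ≠ c → M a c = 2) :
    ∃ r : Art M →* Art M, r (gen M b) = gen M b ∧ r (gen M c) = gen M c ∧ ∀ a, a ≠ b → a ≠ c → r (gen M a) = 1 := by
  have h2 : ∀ x : Art M, alt x 1 2 = alt 1 x 2 := fun x => by simp [alt]
  let f : B → Art M := fun a => if a = b ∨ a = c then gen M a else 1
  have fb : ∀ a, (a = b ∨ a = c) → f a = gen M a := fun a h => if_pos h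
  have f1 : ∀ a, ¬ (a = b ∨ a = c) → f a = 1 := fun a h => if_neg h
  have hf : ∀ i j, M i j ≠ 0 → alt (f i) (f j) (M i j) = alt (f j) (f i) (M i j) := by
    intro i j hij
    by_cases hi : i = b ∨ i = c
    · by_cases hj : j = b ∨ j = c
      · rw [fb i hi, fb j hj]
        exact gen_rel hij
      · have h3 : M i j = 2 := by
          have hj' : j ≠ b ∧ j ≠ c := ⟨fun h => hj (Or.inl h), fun h => hj (Or.inr h)⟩
          rcases hi with rfl | rfl
          · rw [M.symmetric]; exact hb j hj'.1 hj'.2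
          · rw [M.symmetric]; exact hc j hj'.1 hj'.2
        rw [f1 j hj, h3]
        exact h2 _
    · by_cases hj : j = b ∨ j = c
      · have h3 : M i j = 2 := by
          have hi' : i ≠ b ∧ i ≠ c := ⟨fun h => hi (Or.inl h), fun h => hi (Or.inr h)⟩
          rcases hj with rfl | rfl
          · exact hb i hi'.1 hi'.2
          · exact hc i hi'.1 hi'.2
        rw [f1 i hi, h3]
        exact (h2 _).symm
      · rw [f1 i hi, f1 j hj]
  refine ⟨lift f hf, ?_, ?_, ?_⟩
  · rw [lift_gen, fb b (Or.inl rfl)]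
  · rw [lift_gen, fb c (Or.inr rfl)]
  · intro a h3 h4
    rw [lift_gen, f1 a (by tauto)]

/-- **Girth, the case of a factor.** -/
theorem gk_factor {b c : B} (hbc : b ≠ c) (h0 : M b c ≠ 0) (hb : ∀ a, a ≠ b → a ≠ c → M a b = 2)
    (hc : ∀ a, a ≠ b → a ≠ c → M a c = 2) : GK (ap M ({b}ᶜ : Set B)) (ap M ({c}ᶜ : Set B)) (M b c) := by
  obtain ⟨r, rb, rc, r1⟩ := exists_ret hb hc
  have rR : ∀ y ∈ ap M ({b, c}ᶜ : Set B), r y = 1 := by
    intro y hy
    refine ap_induction (P := fun y => r y = 1) (map_one r) ?_ ?_ hy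
    · intro x _ k hk h
      rw [map_mul, h, one_mul]
      exact r1 k (fun e => hk (Or.inl e)) (fun e => hk (Or.inr e))
    · intro x _ k hk h
      rw [map_mul, h, one_mul, map_inv, r1 k (fun e => hk (Or.inl e)) (fun e => hk (Or.inr e)), inv_one]
  have hpow : ∀ i j : ℤ, gen M c ^ i = gen M b ^ j → i ≠ 0 → False := by
    intro i j h hi
    have hj : j ≠ 0 := by
      rintro rfl
      rw [zpow_zero] at h
      exact zp_ne hi h
    have h2 : 2 ≤ M b c := by
      have := M.off_diagonal b c hbc
      have h3 : M b c ≠ 1 := this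
      omega
    have h6 : M c b = M b c := M.symmetric c b
    refine altz_ne_one M (s := c) (t := b) hbc.symm (by rw [h6]; exact h0) (k := fun n => if n = 0 then i else -j) (n := 2)
      (by omega) ⟨1, rfl⟩ (by rw [h6]; omega) ?_ ?_
    · intro n _
      show (if n = 0 then i else -j) ≠ 0
      split_ifs
      · exact hi
      · exact neg_ne_zero.2 hj
    · rw [altz_succ', altz_succ']
      show gen M c ^ i * (gen M b ^ (-j) * altz _ _ _ 0) = 1
      rw [altz, mul_one, zpow_neg, h, mul_inv_cancel]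
  refine GK.of_hom r (gk_dih hbc h0) ?_ ?_
  · intro x hx hx'
    obtain ⟨n, y, hy, rfl⟩ := dec hbc hc hx
    rw [map_mul, rR y hy, mul_one, map_zpow, rc]
    refine ⟨⟨n, rfl⟩, ?_⟩
    rintro ⟨j, hj⟩
    have hj' : gen M b ^ j = gen M c ^ n := hj
    by_cases hn : n = 0
    · apply hx'
      subst hn
      rw [zpow_zero, one_mul]
      exact ap_mono (K := ({b, c}ᶜ : Set B)) (L := ({c}ᶜ : Set B)) (fun a ha e => ha (Or.inr e)) hy
    · exact hpow n j hj'.symm hn
  · intro x hx hx'
    have hb' : ∀ a, a ≠ c → a ≠ b → M a b = 2 := fun a h1 h2 => hb a h2 h1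
    obtain ⟨n, y, hy, rfl⟩ := dec hbc.symm hb' hx
    have hy' : y ∈ ap M ({b, c}ᶜ : Set B) := by
      rw [Set.pair_comm]
      exact hy
    rw [map_mul, rR y hy', mul_one, map_zpow, rb]
    refine ⟨⟨n, rfl⟩, ?_⟩
    rintro ⟨j, hj⟩
    have hj' : gen M c ^ j = gen M b ^ n := hj
    by_cases hn : n = 0
    · apply hx'
      subst hn
      rw [zpow_zero, one_mul]
      exact ap_mono (K := ({b, c}ᶜ : Set B)) (L := ({b}ᶜ : Set B)) (fun a ha e => ha (Or.inl e)) hy'
    · by_cases hj0 : j = 0
      · subst hj0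
        rw [zpow_zero] at hj'
        exact zp_ne hn hj'.symm
      · exact hpow j n hj' hj0

end Pool.Agent.H65.LR
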