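import Pool.Agent.H34.TG.Gr
import Pool.Agent.H34.TG.Dih
import Pool.Agent.H75.INF.Vdl

/-!
# Girth of locally reducible Artin groups: the induction

`StepG` is the step with a triangle of generators; it is proved with the coset complex and the levels.
-/

set_option autoImplicit false

namespace Pool.Agent.H65.LR

open Pool.Agent.H52.PAG Pool.Agent.H75.INF Pool.Agent.H34.TG Pool.H8.CDW

/-- for every triple of generators two of the labels are `2` or the sum of the reciprocals is at most one (the label `0`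
means no relation) -/
def LocRed {B : Type} (M : CoxeterMatrix B) : Prop := ∀ i j k, i ≠ j → j ≠ k → i ≠ k →
  (M i j = 2 ∧ M j k = 2) ∨ (M j k = 2 ∧ M i k = 2) ∨ (M i j = 2 ∧ M i k = 2) ∨
    (1 : ℝ) / M i j + 1 / M j k + 1 / M i k ≤ 1

/-- the step of the induction -/
def StepG : Prop := ∀ (B : Type) [Finite B] (M : CoxeterMatrix B) (a b c : B), a ≠ b → b ≠ c → a ≠ c →
  (∀ i j, M i j ≠ 0) → (1 : ℝ) / M b c + 1 / M a c + 1 / M a b ≤ 1 →
  Gir (ap M ({a, b}ᶜ : Set B)) (ap M ({a, c}ᶜ : Set B)) (M b c) →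
  Gir (ap M ({b, a}ᶜ : Set B)) (ap M ({b, c}ᶜ : Set B)) (M a c) →
  Gir (ap M ({c, a}ᶜ : Set B)) (ap M ({c, b}ᶜ : Set B)) (M a b) →
  Gir (ap M ({b}ᶜ : Set B)) (ap M ({c}ᶜ : Set B)) (M b c)

/-- transport along an injective homomorphism -/
theorem gir_map {G H : Type} [Group G] [Group H] {f : G →* H} (hf : Function.Injective f) {P Q : Subgroup G} {m : ℕ}
    (h : Gir P Q m) : Gir (P.map f) (Q.map f) m := by
  intro x y k h0 h1 hx hy he
  classical
  have hx' : ∀ r, ∃ a, r < k → a ∈ P ∧ a ∉ Q ∧ f a = x r := fun r => by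
    by_cases hr : r < k
    · obtain ⟨⟨a, ha, e⟩, h2⟩ := hx r hr
      exact ⟨a, fun _ => ⟨ha, fun h3 => h2 ⟨a, h3, e⟩, e⟩⟩
    · exact ⟨1, fun h => absurd h hr⟩
  have hy' : ∀ r, ∃ a, r < k → a ∈ Q ∧ a ∉ P ∧ f a = y r := fun r => by
    by_cases hr : r < k
    · obtain ⟨⟨a, ha, e⟩, h2⟩ := hy r hr
      exact ⟨a, fun _ => ⟨ha, fun h3 => h2 ⟨a, h3, e⟩, e⟩⟩
    · exact ⟨1, fun h => absurd h hr⟩
  choose x' hx' using hx'
  choose y' hy' using hy'
  refine h x' y' k h0 h1 (fun r hr => ⟨(hx' r hr).1, (hx' r hr).2.1⟩) (fun r hr => ⟨(hy' r hr).1, (hy' r hr).2.1⟩) ?_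
  apply hf
  rw [alp_map, map_one, ← he]
  exact alp_congr (fun r hr => (hx' r hr).2.2) fun r hr => (hy' r hr).2.2

/-- parabolic subgroups of parabolic subgroups -/
theorem gir_res {B : Type} {M : CoxeterMatrix B} {a b c : B} (hab : b ≠ a) (hac : c ≠ a) {m : ℕ}
    (h : Gir (ap (resM M ({a}ᶜ : Set B)) ({⟨b, hab⟩}ᶜ : Set ({a}ᶜ : Set B)))
      (ap (resM M ({a}ᶜ : Set B)) ({⟨c, hac⟩}ᶜ : Set ({a}ᶜ : Set B))) m) :
    Gir (ap M ({a, b}ᶜ : Set B)) (ap M ({a, c}ᶜ : Set B)) m := by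
  obtain ⟨ι, hi, hg, -⟩ := exists_inc M ({a}ᶜ : Set B)
  have key : ∀ (d : B) (hd : d ≠ a), (ap (resM M ({a}ᶜ : Set B)) ({⟨d, hd⟩}ᶜ : Set ({a}ᶜ : Set B))).map ι =
      ap M ({a, d}ᶜ : Set B) := by
    intro d hd
    unfold ap
    rw [MonoidHom.map_closure]
    congr 1
    ext x
    constructor
    · rintro ⟨_, ⟨k, hk, rfl⟩, rfl⟩
      refine ⟨k.1, ?_, (hg k).symm⟩
      rintro (h1 | h1)
      · exact k.2 h1
      · exact hk (Subtype.ext h1)
    · rintro ⟨k, hk, rfl⟩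
      refine ⟨_, ⟨⟨k, fun h1 => hk (Or.inl h1)⟩, fun h1 => hk (Or.inr (congrArg Subtype.val h1)), rfl⟩, hg _⟩
  have h2 := gir_map hi h
  rwa [key, key] at h2

theorem gir_ind (hS : StepG) (n : ℕ) : ∀ (B : Type) [Finite B] (M : CoxeterMatrix B), Nat.card B = n →
    (∀ i j, M i j ≠ 0) → LocRed M → ∀ b c, b ≠ c → Gir (ap M ({b}ᶜ : Set B)) (ap M ({c}ᶜ : Set B)) (M b c) := by
  induction n using Nat.strong_induction_on with
  | _ n ih =>
    intro B _ M hn h0 hM b c hbc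
    have hlab : ∀ i j, i ≠ j → M i j ≠ 1 := fun i j h => M.off_diagonal i j h
    have hb2 := hlab b c hbc
    have hb0 := h0 b c
    by_cases h2 : M b c = 2
    · rw [h2]
      exact gir_two _ _
    by_cases hex : ∃ a, a ≠ b ∧ a ≠ c ∧ (M a b ≠ 2 ∨ M a c ≠ 2)
    · obtain ⟨a, hab, hac, ha⟩ := hex
      have sub : ∀ x y z : B, ∀ (hy : y ≠ x) (hz : z ≠ x), y ≠ z →
          Gir (ap M ({x, y}ᶜ : Set B)) (ap M ({x, z}ᶜ : Set B)) (M y z) := by
        intro x y z hy hz hyz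
        refine gir_res hy hz ?_
        have hlt : Nat.card ({x}ᶜ : Set B) < n := by
          rw [← hn]
          exact Finite.card_subtype_lt (p := fun t => t ∈ ({x}ᶜ : Set B)) (x := x) (fun h => h rfl)
        refine ih _ hlt _ (resM M ({x}ᶜ : Set B)) rfl (fun i j => h0 i.1 j.1) ?_ ⟨y, hy⟩ ⟨z, hz⟩
          (fun h => hyz (congrArg Subtype.val h))
        intro i j k hij hjk hik
        exact hM i.1 j.1 k.1 (fun h => hij (Subtype.ext h)) (fun h => hjk (Subtype.ext h))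
          (fun h => hik (Subtype.ext h))
      have hsum : (1 : ℝ) / M b c + 1 / M a c + 1 / M a b ≤ 1 := by
        rcases hM a b c hab hbc hac with h | h | h | h
        · exact absurd h.2 h2
        · exact absurd h.1 h2
        · rcases ha with ha | ha
          · exact absurd h.1 ha
          · exact absurd h.2 ha
        · linarith
      have e1 := sub a b c hab.symm hac.symm hbc
      have e2 := sub b a c hab hbc.symm hac
      have e3 := sub c a b hac hbc hab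
      exact hS B M a b c hab hbc hac h0 hsum e1 e2 e3
    · push Not at hex
      exact gir_dih M hbc hb0 (fun s h3 h4 => (hex s h3 h4).1) fun s h3 h4 => (hex s h3 h4).2

end Pool.Agent.H65.LR
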