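import Pool.Agent.H65.LR.Lrf
import Pool.Agent.H52.T3.Main
import Pool.Agent.H34.TG.Art
import Pool.Agent.H34.TG.SC
import Pool.Agent.H34.TG.Tc
import Pool.Agent.H34.TG.Act
import Pool.Agent.H71.SM.SepJ

/-!
# The step for the class

The preimages of the cyclic subgroups of the Coxeter group act on the coset complex of the triangle of the subgroups
without one of the generators `a`, `b`, `c`.
-/

set_option autoImplicit false

namespace Pool.Agent.H65.LR

open Pool.Agent.H52.PAG Pool.Agent.H75.INF Pool.Agent.H34.TG Pool.H8.CDW Pool.Agent.H98.FJ Pool.Agent.H54.CX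
open Pool.Agent.H52.T2 (TC2)
open Pool.Agent.H52.T3 (TL TA0)

variable {C : (G : Type) → [Group G] → Prop}

private theorem fin3 {P : Fin 3 → Fin 3 → Fin 3 → Prop} (hsym : ∀ i j k, P i j k → P i k j)
    (h0 : P 0 1 2) (h1 : P 1 0 2) (h2 : P 2 0 1) : ∀ i j k : Fin 3, i ≠ j → j ≠ k → i ≠ k → P i j k := by
  intro i j k hij hjk hik
  fin_cases i <;> fin_cases j <;> fin_cases k <;>
    first
    | exact absurd rfl hij
    | exact absurd rfl hjk
    | exact absurd rfl hik
    | exact h0
    | exact h1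
    | exact h2
    | exact hsym _ _ _ h0
    | exact hsym _ _ _ h1
    | exact hsym _ _ _ h2

theorem step_f (hC : Inherits C) (hE : Extension C) (hcat : Cat2 C) (hGL : ∀ n : ℕ, C (GL (Fin n) ℤ)) :
    StepF C := by
  intro B _ M a b c ma mb mc hab hbc hac h2a h2b h2c hs ga gb gc hJ
  let t : Fin 3 → B := ![a, b, c]
  let m : Fin 3 → ℕ := ![ma, mb, mc]
  have ht : Function.Injective t := by
    intro i j h
    fin_cases i <;> fin_cases j <;>
      first
      | rfl
      | exact absurd h hab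
      | exact absurd h hbc
      | exact absurd h hac
      | exact absurd h hab.symm
      | exact absurd h hbc.symm
      | exact absurd h hac.symm
  have hm : ∀ i, 2 ≤ m i := by
    intro i
    fin_cases i
    · exact h2a
    · exact h2b
    · exact h2c
  have hg : ∀ i j k : Fin 3, i ≠ j → j ≠ k → i ≠ k →
      Gir (sg (tH M t) {i, j}) (sg (tH M t) {i, k}) (m i) := by
    refine fin3 (P := fun i j k => Gir (sg (tH M t) {i, j}) (sg (tH M t) {i, k}) (m i)) (fun i j k h => h.symm)
      ?_ ?_ ?_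
    · rw [sg_tH_pair, sg_tH_pair]
      exact ga
    · rw [sg_tH_pair, sg_tH_pair]
      exact gb
    · rw [sg_tH_pair, sg_tH_pair]
      exact gc
  have hT : TC2 (tcx (tH M t) m) kd tp (mu m) := tcx_tc hm hs hg
  have hW : C M.Group := cox_mem hC hGL B M
  refine Pool.Agent.H71.SM.mem_of_gw M hC hE hW fun w => ?_
  have ha : TA0 (tcx (tH M t) m) tp (Art M) := ⟨tcx_inv m, fun _ _ => rfl⟩
  refine TL hC hE hcat hT (tcx_bdd m) (tcx_sc (col3_tH M ht) m) (ha.sub (gw M w)) (tcx_fin m) fun F => ?_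
  -- the local homomorphisms
  have hx : ∀ v : Vx (tH M t), ∃ x, Mem x v := exists_mem
  choose x hx using hx
  have hi : ∀ v : Vx (tH M t), ∃ i, i ∈ tp v := fun v => v.1.2
  choose i hi using hi
  obtain ⟨Q, _, f, hQ, hf⟩ := Pool.Agent.H71.SM.loc_hom M hC hE hW hJ w (ι := F)
    (fun v => ({t (i v.1)}ᶜ : Set B)) (fun v h => by
      have h1 : t (i v.1) ∈ ({t (i v.1)}ᶜ : Set B) := by rw [h]; exact Set.mem_univ _
      exact h1 rfl) (fun v => x v.1)
  refine ⟨Q, inferInstance, f, hQ, fun v hv g hgv => hf ⟨v, hv⟩ g ?_⟩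
  have h1 : (g : Art M) • v = v := hgv
  have h2 := (smul_eq_iff (hx v) (g : Art M)).1 h1
  exact sg_tH_le M t (hi v) h2

end Pool.Agent.H65.LR
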