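import Mathlib

/-!
# Girth in terms of alternating products

`GK G1 G2 m`: the bipartite graph of the cosets of the subgroups `G1` and `G2` has no closed path with less than `2 m`
sides.
-/

set_option autoImplicit false

namespace Pool.Agent.H65.LR

variable {G : Type} [Group G]

/-- no alternating product of fewer than `m` pairs is trivial -/
def GK (G1 G2 : Subgroup G) (m : ℕ) : Prop :=
  ∀ l : List (G × G), l ≠ [] → l.length < m → (∀ x ∈ l, x.1 ∈ G1 ∧ x.1 ∉ G2 ∧ x.2 ∈ G2 ∧ x.2 ∉ G1) →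
    (l.map fun x => x.1 * x.2).prod ≠ 1

theorem GK.mono {G1 G2 : Subgroup G} {m n : ℕ} (h : GK G1 G2 m) (hn : n ≤ m) : GK G1 G2 n :=
  fun l h1 h2 h3 => h l h1 (lt_of_lt_of_le h2 hn) h3

theorem GK.symm {G1 G2 : Subgroup G} {m : ℕ} (h : GK G1 G2 m) : GK G2 G1 m := by
  intro l h1 h2 h3 h4
  refine h ((l.map fun x => (x.2⁻¹, x.1⁻¹)).reverse) ?_ ?_ ?_ ?_
  · intro h5
    rw [List.reverse_eq_nil_iff, List.map_eq_nil_iff] at h5
    exact h1 h5
  · rwa [List.length_reverse, List.length_map]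
  · intro x hx
    rw [List.mem_reverse, List.mem_map] at hx
    obtain ⟨y, hy, rfl⟩ := hx
    obtain ⟨a1, a2, a3, a4⟩ := h3 y hy
    exact ⟨inv_mem a3, fun h5 => a4 (by simpa using inv_mem h5), inv_mem a1, fun h5 => a2 (by simpa using inv_mem h5)⟩
  · rw [List.map_reverse, List.map_map]
    have h5 : ((fun x : G × G => x.1 * x.2) ∘ fun x : G × G => (x.2⁻¹, x.1⁻¹)) = (fun x : G => x⁻¹) ∘
        fun x : G × G => x.1 * x.2 := by
      funext x
      simp
    have h6 := List.prod_inv_reverse (l.map fun x => x.1 * x.2)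
    rw [h4, inv_one] at h6
    rw [h5, ← List.map_map, ← h6]

/-- one pair is never trivial -/
theorem GK.two (G1 G2 : Subgroup G) {m : ℕ} (hm : m ≤ 2) : GK G1 G2 m := by
  intro l h1 h2 h3 h4
  match l, h1, h2, h3, h4 with
  | [x], _, _, h3, h4 =>
    obtain ⟨_, a2, a3, _⟩ := h3 x (List.mem_singleton_self _)
    have h5 : x.1 * x.2 = 1 := by simpa using h4
    rw [eq_inv_of_mul_eq_one_left h5] at a2
    exact a2 (inv_mem a3)
  | x :: y :: l, _, h2, _, _ =>
    simp only [List.length_cons] at h2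
    omega

/-- transport along an injective homomorphism -/
theorem GK.map {H : Type} [Group H] {f : G →* H} (hf : Function.Injective f) {G1 G2 : Subgroup G} {m : ℕ}
    (h : GK G1 G2 m) : GK (G1.map f) (G2.map f) m := by
  intro l h1 h2 h3 h4
  have h5 : ∃ l' : List (G × G), l = l'.map (fun x => (f x.1, f x.2)) ∧
      ∀ x ∈ l', x.1 ∈ G1 ∧ x.1 ∉ G2 ∧ x.2 ∈ G2 ∧ x.2 ∉ G1 := by
    clear h1 h2 h4
    induction l with
    | nil => exact ⟨[], rfl, fun x hx => by simp at hx⟩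
    | cons x l ih =>
      obtain ⟨l', rfl, h6⟩ := ih fun y hy => h3 y (List.mem_cons_of_mem _ hy)
      obtain ⟨⟨a, ha, ea⟩, a2, ⟨b, hb, eb⟩, a4⟩ := h3 x List.mem_cons_self
      refine ⟨(a, b) :: l', ?_, ?_⟩
      · rw [List.map_cons, ea, eb]
      · intro y hy
        rcases List.mem_cons.1 hy with rfl | hy
        · exact ⟨ha, fun h7 => a2 ⟨a, h7, ea⟩, hb, fun h7 => a4 ⟨b, h7, eb⟩⟩
        · exact h6 y hy
  obtain ⟨l', rfl, h6⟩ := h5
  refine h l' (fun h7 => h1 (by rw [h7, List.map_nil])) (by rwa [List.length_map] at h2) h6 ?_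
  apply hf
  rw [map_list_prod, List.map_map, map_one]
  rw [List.map_map] at h4
  have h7 : (f ∘ fun x : G × G => x.1 * x.2) = ((fun x : H × H => x.1 * x.2) ∘ fun x : G × G => (f x.1, f x.2)) := by
    funext x
    simp
  rw [h7]
  exact h4

/-- transport from a quotient: the images of the elements in the products have to stay outside -/
theorem GK.of_hom {H : Type} [Group H] (f : G →* H) {G1 G2 : Subgroup G} {H1 H2 : Subgroup H} {m : ℕ}
    (h : GK H1 H2 m) (h1 : ∀ x, x ∈ G1 → x ∉ G2 → f x ∈ H1 ∧ f x ∉ H2)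
    (h2 : ∀ x, x ∈ G2 → x ∉ G1 → f x ∈ H2 ∧ f x ∉ H1) : GK G1 G2 m := by
  intro l a1 a2 a3 a4
  refine h (l.map fun x => (f x.1, f x.2)) (fun h7 => a1 (List.map_eq_nil_iff.1 h7)) (by rwa [List.length_map]) ?_ ?_
  · intro x hx
    obtain ⟨y, hy, rfl⟩ := List.mem_map.1 hx
    obtain ⟨b1, b2, b3, b4⟩ := a3 y hy
    exact ⟨(h1 _ b1 b2).1, (h1 _ b1 b2).2, (h2 _ b3 b4).1, (h2 _ b3 b4).2⟩
  · have h7 := congrArg f a4
    rw [map_list_prod, List.map_map, map_one] at h7
    rw [List.map_map, ← h7]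
    congr 1
    apply List.map_congr_left
    intro x _
    simp

end Pool.Agent.H65.LR
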