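import Pool.Agent.H65.LR.Lrf

/-!
# Locally reducible Artin groups: all finite irreducible sets of generators with finite labels
-/

set_option autoImplicit false

namespace Pool.Agent.H65.LR

open Pool.Agent.H52.PAG Pool.Agent.H75.INF Pool.Agent.H34.TG Pool.Agent.H98.FJ Pool.Agent.H54.CX
open Pool.Agent.H54.AR (rst rst_apply)

variable {C : (G : Type) → [Group G] → Prop}

theorem lr_of (hC : Inherits C) (hE : Extension C) (hcat : Cat2 C) (hGL : ∀ n : ℕ, C (GL (Fin n) ℤ)) (hS : StepG)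
    (hF : StepF C) (B : Type) (M : CoxeterMatrix B)
    (hM : ∀ K : Finset B, (∀ i ∈ K, ∀ j ∈ K, M i j ≠ 0) →
      (∀ L ⊆ K, L.Nonempty → L ≠ K → ∃ i ∈ L, ∃ j ∈ K, j ∉ L ∧ M i j ≠ 2) →
      C (Art (rst M K)) ∨ ∀ i ∈ K, ∀ j ∈ K, ∀ k ∈ K, i ≠ j → j ≠ k → i ≠ k →
        (M i j = 2 ∧ M j k = 2) ∨ (M j k = 2 ∧ M i k = 2) ∨ (M i j = 2 ∧ M i k = 2) ∨
          (1 : ℝ) / M i j + 1 / M j k + 1 / M i k ≤ 1) : C (Art M) := by
  refine irr_mem hC hE hGL B M fun K hK hirr => ?_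
  rcases hM K hK hirr with h | h
  · exact h
  refine lr_fin hC hE hcat hGL hS hF _ K (rst M K) rfl (fun i j => hK i.1 i.2 j.1 j.2) ?_
  intro i j k hij hjk hik
  exact h i.1 i.2 j.1 j.2 k.1 k.2 (fun e => hij (Subtype.ext e)) (fun e => hjk (Subtype.ext e))
    (fun e => hik (Subtype.ext e))

end Pool.Agent.H65.LR
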