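import Pool.Agent.H65.LR.GirInd
import Pool.Agent.H52.T2.Fin
import Pool.Agent.H75.INF.Irr

/-!
# Locally reducible Artin groups are in the class: the induction

`StepF C` is the step: the group acts on the coset complex of a triangle of generators.
-/

set_option autoImplicit false

namespace Pool.Agent.H65.LR

open Pool.Agent.H52.PAG Pool.Agent.H75.INF Pool.Agent.H34.TG Pool.H8.CDW Pool.Agent.H98.FJ Pool.Agent.H54.CX
open Pool.Agent.H54.AR (rst rst_apply)

variable {C : (G : Type) → [Group G] → Prop}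

/-- the step for the class `C` -/
def StepF (C : (G : Type) → [Group G] → Prop) : Prop :=
  ∀ (B : Type) [Finite B] (M : CoxeterMatrix B) (a b c : B) (ma mb mc : ℕ), a ≠ b → b ≠ c → a ≠ c →
  2 ≤ ma → 2 ≤ mb → 2 ≤ mc → (1 : ℝ) / ma + 1 / mb + 1 / mc ≤ 1 →
  Gir (ap M ({a, b}ᶜ : Set B)) (ap M ({a, c}ᶜ : Set B)) ma →
  Gir (ap M ({b, a}ᶜ : Set B)) (ap M ({b, c}ᶜ : Set B)) mb →
  Gir (ap M ({c, a}ᶜ : Set B)) (ap M ({c, b}ᶜ : Set B)) mc →
  (∀ J : Set B, J ≠ Set.univ → C (ap M J)) → C (Art M)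

/-- the pairs of a proper parabolic subgroup -/
theorem gir_sub (hS : StepG) {B : Type} [Finite B] {M : CoxeterMatrix B} (h0 : ∀ i j, M i j ≠ 0) (hM : LocRed M)
    {x y z : B} (hy : y ≠ x) (hz : z ≠ x) (hyz : y ≠ z) :
    Gir (ap M ({x, y}ᶜ : Set B)) (ap M ({x, z}ᶜ : Set B)) (M y z) := by
  refine gir_res hy hz ?_
  refine gir_ind hS _ _ (resM M ({x}ᶜ : Set B)) rfl (fun i j => h0 i.1 j.1) ?_ ⟨y, hy⟩ ⟨z, hz⟩
    (fun h => hyz (congrArg Subtype.val h))
  intro i j k hij hjk hik
  exact hM i.1 j.1 k.1 (fun h => hij (Subtype.ext h)) (fun h => hjk (Subtype.ext h))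
    (fun h => hik (Subtype.ext h))

/-- an irreducible matrix with at least three generators has a connected triple -/
theorem exists_triple {B : Type} [Finite B] {M : CoxeterMatrix B} (h3 : 3 ≤ Nat.card B)
    (hirr : ∀ L : Set B, L.Nonempty → L ≠ Set.univ → ∃ i ∈ L, ∃ j, j ∉ L ∧ M i j ≠ 2) :
    ∃ a b c, a ≠ b ∧ b ≠ c ∧ a ≠ c ∧ M b c ≠ 2 ∧ (M a b ≠ 2 ∨ M a c ≠ 2) := by
  have : Nonempty B := by
    by_contra hcon
    have : IsEmpty B := not_nonempty_iff.1 hcon
    rw [Nat.card_of_isEmpty] at h3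
    omega
  obtain ⟨b⟩ := this
  have hu1 : ({b} : Set B) ≠ Set.univ := by
    intro h
    have h4 := congrArg Set.ncard h
    rw [Set.ncard_singleton, Set.ncard_univ] at h4
    omega
  obtain ⟨b', hb', c, hc, hbc⟩ := hirr {b} ⟨b, rfl⟩ hu1
  rw [Set.mem_singleton_iff] at hb'
  subst hb'
  have hbc' : b' ≠ c := fun h => hc h.symm
  have hu2 : ({b', c} : Set B) ≠ Set.univ := by
    intro h
    have h4 := congrArg Set.ncard h
    rw [Set.ncard_pair hbc', Set.ncard_univ] at h4
    omega
  obtain ⟨i, hi, a, ha, hia⟩ := hirr {b', c} ⟨b', Or.inl rfl⟩ hu2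
  have hab : a ≠ b' := fun h => ha (Or.inl h)
  have hac : a ≠ c := fun h => ha (Or.inr h)
  refine ⟨a, b', c, hab, hbc', hac, hbc, ?_⟩
  rcases hi with hi | hi
  · left
    rw [M.symmetric, ← hi]
    exact hia
  · right
    rw [Set.mem_singleton_iff] at hi
    rw [M.symmetric, ← hi]
    exact hia

theorem lr_fin (hC : Inherits C) (hE : Extension C) (hcat : Cat2 C) (hGL : ∀ n : ℕ, C (GL (Fin n) ℤ)) (hS : StepG)
    (hF : StepF C) (n : ℕ) : ∀ (B : Type) [Finite B] (M : CoxeterMatrix B), Nat.card B = n →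
    (∀ i j, M i j ≠ 0) → LocRed M → C (Art M) := by
  classical
  induction n using Nat.strong_induction_on with
  | _ n ih =>
    intro B _ M hn h0 hM
    by_cases h3 : 3 ≤ Nat.card B
    swap
    · refine Pool.Agent.H52.T2.two_dim_mem hC hE hcat hGL B M ?_
      intro i j k hij hjk hik
      exfalso
      apply h3
      have h4 : Set.ncard ({i, j, k} : Set B) = 3 := by
        rw [Set.ncard_insert_of_notMem (by
          rintro (h | h)
          · exact hij h
          · exact hik h) (Set.toFinite _), Set.ncard_pair hjk]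
      rw [← h4, ← Set.ncard_univ]
      exact Set.ncard_le_ncard (Set.subset_univ _) Set.finite_univ
    have hlab : ∀ i j, i ≠ j → M i j ≠ 1 := fun i j h => M.off_diagonal i j h
    have hlab2 : ∀ i j, i ≠ j → 2 ≤ M i j := fun i j h => by
      have h1 := hlab i j h
      have h2 := h0 i j
      omega
    have hJ : ∀ J : Set B, J ≠ Set.univ → C (ap M J) := by
      intro J hJ
      refine ap_of_res M hC (ih (Nat.card J) ?_ J (resM M J) rfl (fun i j => h0 i.1 j.1) ?_)
      · rw [← hn, Nat.card_coe_set_eq, ← Set.ncard_univ]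
        exact Set.ncard_lt_ncard (Set.ssubset_univ_iff.2 hJ) Set.finite_univ
      · intro i j k hij hjk hik
        exact hM i.1 j.1 k.1 (fun h => hij (Subtype.ext h)) (fun h => hjk (Subtype.ext h))
          (fun h => hik (Subtype.ext h))
    refine irr_mem hC hE hGL B M fun K _ hirr => ?_
    by_cases hK : (K : Set B) = Set.univ
    swap
    · obtain ⟨e⟩ := art_congr (resM M (K : Set B)) (rst M K) (Equiv.refl _) fun i j => rfl
      exact hC.iso _ _ e (res_of_ap M hC (hJ _ hK))
    have hK' : ∀ x, x ∈ K := fun x => by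
      have : x ∈ (K : Set B) := by rw [hK]; exact Set.mem_univ x
      exact this
    obtain ⟨e⟩ := art_congr (rst M K) M ⟨fun x => x.1, fun x => ⟨x, hK' x⟩, fun _ => rfl, fun _ => rfl⟩ fun i j => rfl
    refine hC.iso _ _ e.symm ?_
    obtain ⟨a, b, c, hab, hbc, hac, h1, h2⟩ := exists_triple (M := M) h3 (fun L hL hLu => by
      have hfin : L.Finite := Set.toFinite L
      obtain ⟨i, hi, j, _, hj, hij⟩ := hirr hfin.toFinset (fun x _ => hK' x) (by simpa using hL) (by
        intro h4
        apply hLu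
        rw [Set.eq_univ_iff_forall]
        intro x
        have h5 : x ∈ hfin.toFinset := by rw [h4]; exact hK' x
        exact (Set.Finite.mem_toFinset hfin).1 h5)
      exact ⟨i, (Set.Finite.mem_toFinset hfin).1 hi, j, fun h => hj ((Set.Finite.mem_toFinset hfin).2 h), hij⟩)
    have hsum : (1 : ℝ) / M b c + 1 / M a c + 1 / M a b ≤ 1 := by
      rcases hM a b c hab hbc hac with h | h | h | h
      · exact absurd h.2 h1
      · exact absurd h.1 h1
      · rcases h2 with h2 | h2
        · exact absurd h.1 h2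
        · exact absurd h.2 h2
      · linarith
    exact hF B M a b c (M b c) (M a c) (M a b) hab hbc hac (hlab2 _ _ hbc) (hlab2 _ _ hac) (hlab2 _ _ hab) hsum
      (gir_sub hS h0 hM hab.symm hac.symm hbc) (gir_sub hS h0 hM hab hbc.symm hac) (gir_sub hS h0 hM hac hbc hab) hJ

end Pool.Agent.H65.LR
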