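import Pool.Agent.H65.LR.Lr
import Pool.Agent.H65.LR.Stp
import Pool.Agent.H34.TG.Gs

/-!
# Locally reducible Artin groups
-/

set_option autoImplicit false

namespace Pool.Agent.H65.LR

open Pool.Agent.H52.PAG Pool.Agent.H75.INF Pool.Agent.H34.TG Pool.Agent.H98.FJ Pool.Agent.H54.CX
open Pool.Agent.H54.AR (rst rst_apply)

variable {C : (G : Type) → [Group G] → Prop}

theorem step_g : StepG := fun _ _ M _ _ _ hab hbc hac h0 hs ga gb gc =>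
  gir_step M hab hbc hac (h0 _ _) (h0 _ _) (h0 _ _) hs ga gb gc

/-- **The girth of locally reducible Artin groups.** -/
theorem gir_all {B : Type} [Finite B] {M : CoxeterMatrix B} (h0 : ∀ i j, M i j ≠ 0) (hM : LocRed M) {b c : B}
    (hbc : b ≠ c) : Gir (ap M ({b}ᶜ : Set B)) (ap M ({c}ᶜ : Set B)) (M b c) :=
  gir_ind step_g _ B M rfl h0 hM b c hbc

/-- **Locally reducible Artin groups.** -/
theorem lr (hC : Inherits C) (hE : Extension C) (hcat : Cat2 C) (hGL : ∀ n : ℕ, C (GL (Fin n) ℤ)) (B : Type)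
    (M : CoxeterMatrix B)
    (hM : ∀ K : Finset B, (∀ i ∈ K, ∀ j ∈ K, M i j ≠ 0) →
      (∀ L ⊆ K, L.Nonempty → L ≠ K → ∃ i ∈ L, ∃ j ∈ K, j ∉ L ∧ M i j ≠ 2) →
      C (Art (rst M K)) ∨ ∀ i ∈ K, ∀ j ∈ K, ∀ k ∈ K, i ≠ j → j ≠ k → i ≠ k →
        (M i j = 2 ∧ M j k = 2) ∨ (M j k = 2 ∧ M i k = 2) ∨ (M i j = 2 ∧ M i k = 2) ∨
          (1 : ℝ) / M i j + 1 / M j k + 1 / M i k ≤ 1) : C (Art M) :=
  lr_of hC hE hcat hGL step_g (step_f hC hE hcat hGL) B M hM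

end Pool.Agent.H65.LR
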